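import Pool.Agent.Helper71_Miya.Ord

/-!
# The shuffled Pythagorean exponential equation: basic facts

We write `f = g + d`, `s = f + g = 2 g + d`.
-/

namespace Pool.Agent.H71M

open scoped NumberTheorySymbols

/-- The hypotenuse. -/
def Cc (g d : ℕ) : ℕ := (g + d) ^ 2 + g ^ 2
/-- The even leg. -/
def Bb (g d : ℕ) : ℕ := 2 * (g + d) * g
/-- The sum `f + g`. -/
def Ss (g d : ℕ) : ℕ := 2 * g + d
/-- The odd leg. -/
def Aa (g d : ℕ) : ℕ := d * Ss g d

/-- A solution of the equation. -/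
structure Sol (g d x y z : ℕ) : Prop where
  hg : 0 < g
  hd : d % 2 = 1
  cop : Nat.Coprime g d
  hx : 0 < x
  hy : 0 < y
  hz : 0 < z
  eq : Cc g d ^ x + Bb g d ^ y = Aa g d ^ z

/-! ### Jacobi symbols of small numbers -/

theorem two_one {b : ℕ} (h : b % 8 = 1 ∨ b % 8 = 7) : J(2 | b) = 1 := by
  have hb : Odd b := Nat.odd_iff.mpr (by omega)
  rw [jacobiSym.at_two hb, ZMod.χ₈_nat_eq_if_mod_eight]
  have h2 : b % 2 ≠ 0 := by omega
  simp [h2, h]

theorem two_neg {b : ℕ} (h : b % 8 = 3 ∨ b % 8 = 5) : J(2 | b) = -1 := by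
  have hb : Odd b := Nat.odd_iff.mpr (by omega)
  rw [jacobiSym.at_two hb, ZMod.χ₈_nat_eq_if_mod_eight]
  have h2 : b % 2 ≠ 0 := by omega
  have h3 : ¬ (b % 8 = 1 ∨ b % 8 = 7) := by omega
  simp [h2, h3]

theorem neg_one_one {b : ℕ} (h : b % 4 = 1) : J(-1 | b) = 1 := by
  have hb : Odd b := Nat.odd_iff.mpr (by omega)
  rw [jacobiSym.at_neg_one hb, ZMod.χ₄_nat_one_mod_four h]

theorem neg_one_neg {b : ℕ} (h : b % 4 = 3) : J(-1 | b) = -1 := by
  have hb : Odd b := Nat.odd_iff.mpr (by omega)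
  rw [jacobiSym.at_neg_one hb, ZMod.χ₄_nat_three_mod_four h]

section
variable {g d : ℕ} (hg : 0 < g) (hd : d % 2 = 1) (cop : Nat.Coprime g d)

theorem C_odd (hd : d % 2 = 1) : Odd (Cc g d) := by
  unfold Cc
  rcases Nat.even_or_odd g with h | h <;> rcases h with ⟨k, hk⟩ <;>
    obtain ⟨l, hl⟩ : ∃ l, d = 2 * l + 1 := ⟨d / 2, by omega⟩ <;> subst hl <;> subst hk
  · exact ⟨4*k*k + 2*k*(2*l+1) + 2*l*l+2*l, by ring⟩
  · exact ⟨4*k*k + 4*k + 1 + (2*k+1)*(2*l+1) + 2*l*l+2*l, by ring⟩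

theorem S_odd (hd : d % 2 = 1) : Odd (Ss g d) := by
  unfold Ss; exact Nat.odd_iff.mpr (by omega)

theorem rel_Cs : Cc g d + Bb g d = Ss g d ^ 2 := by unfold Cc Bb Ss; ring

theorem rel_Cd : Cc g d = Bb g d + d ^ 2 := by unfold Cc Bb; ring

theorem rel_pyth : Aa g d ^ 2 + Bb g d ^ 2 = Cc g d ^ 2 := by unfold Cc Bb Aa Ss; ring

theorem C_mod_s : Cc g d = 2 * g ^ 2 + d * Ss g d := by unfold Cc Ss; ring

/-- `C` is `1` modulo `4`. -/
theorem C_mod4 (hd : d % 2 = 1) : Cc g d % 4 = 1 := by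
  unfold Cc
  have h1 : (g + d) % 4 = 0 ∨ (g + d) % 4 = 1 ∨ (g + d) % 4 = 2 ∨ (g + d) % 4 = 3 := by omega
  have h2 : g % 4 = 0 ∨ g % 4 = 1 ∨ g % 4 = 2 ∨ g % 4 = 3 := by omega
  rw [Nat.add_mod, Nat.pow_mod, Nat.pow_mod g]
  rcases h1 with h1 | h1 | h1 | h1 <;> rcases h2 with h2 | h2 | h2 | h2 <;>
    rw [h1, h2] <;> first | rfl | (exfalso; omega)

include cop in
theorem cop_fg : Nat.Coprime (g + d) g := by
  rw [add_comm]
  exact Nat.coprime_add_self_left.mpr cop.symm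

include cop in
theorem cop_gs : Nat.Coprime g (Ss g d) := by
  unfold Ss
  have : 2 * g + d = d + g * 2 := by ring
  rw [this]
  exact (Nat.coprime_add_mul_left_right _ _ _).mpr cop

include cop hd in
theorem cop_sC : Nat.Coprime (Ss g d) (Cc g d) := by
  rw [C_mod_s, add_comm]
  rw [Nat.coprime_mul_right_add_right]
  refine Nat.Coprime.mul_right ?_ ((cop_gs cop).symm.pow_right 2)
  exact (Nat.coprime_two_right).mpr (S_odd hd)

include cop hd in
theorem cop_dC : Nat.Coprime d (Cc g d) := by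
  have : Cc g d = 2 * g ^ 2 + d * Ss g d := C_mod_s
  rw [this]
  rw [add_comm, Nat.coprime_mul_left_add_right]
  refine Nat.Coprime.mul_right ?_ (cop.symm.pow_right 2)
  exact (Nat.coprime_two_right).mpr (Nat.odd_iff.mpr hd)

include cop hd in
theorem cop_AC : Nat.Coprime (Aa g d) (Cc g d) :=
  Nat.Coprime.mul_left (cop_dC hd cop) (cop_sC hd cop)

include cop hd in
theorem cop_BC : Nat.Coprime (Bb g d) (Cc g d) := by
  rw [← Nat.coprime_add_self_left, add_comm, rel_Cs]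
  exact (cop_sC hd cop).pow_left 2

include cop in
/-- Prime factors of `C` are `1` modulo `4`. -/
theorem prime_C (hd : d % 2 = 1) {p : ℕ} (hp : p.Prime) (h : p ∣ Cc g d) : p % 4 = 1 := by
  have hs : IsSquare (-1 : ZMod (Cc g d)) :=
    ZMod.isSquare_neg_one_of_eq_sq_add_sq_of_coprime rfl (cop_fg cop)
  have h3 := Nat.mod_four_ne_three_of_mem_primeFactors_of_isSquare_neg_one
    (Nat.mem_primeFactors.mpr ⟨hp, h, (C_odd hd).pos.ne'⟩) hs
  have hodd : Odd p := Odd.of_dvd_nat (C_odd hd) h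
  have := Nat.odd_iff.mp hodd
  omega

include cop in
theorem J_Cs : J(Cc g d | Ss g d) = J(2 | Ss g d) := by
  have h1 : ((Cc g d : ℕ) : ℤ) % (Ss g d : ℕ) = (2 * (g : ℤ) ^ 2) % (Ss g d : ℕ) := by
    rw [C_mod_s]; push_cast
    rw [Int.add_mul_emod_self_right]
  rw [jacobiSym.mod_left' h1, jacobiSym.mul_left, jacobiSym.sq_one', mul_one]
  rw [Int.gcd_natCast_natCast]; exact cop_gs cop

include cop in
theorem J_Cd : J(Cc g d | d) = J(2 | d) := by
  have h1 : ((Cc g d : ℕ) : ℤ) % (d : ℕ) = (2 * (g : ℤ) ^ 2) % (d : ℕ) := by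
    rw [C_mod_s]; push_cast
    rw [Int.add_mul_emod_self_left]
  rw [jacobiSym.mod_left' h1, jacobiSym.mul_left, jacobiSym.sq_one', mul_one]
  rw [Int.gcd_natCast_natCast]; exact cop

include cop hd in
theorem J_sC : J(Ss g d | Cc g d) = J(2 | Ss g d) := by
  rw [jacobiSym.quadratic_reciprocity_one_mod_four' (S_odd hd) (C_mod4 hd)]
  exact J_Cs cop

include cop hd in
theorem J_dC : J(d | Cc g d) = J(2 | d) := by
  rw [jacobiSym.quadratic_reciprocity_one_mod_four' (Nat.odd_iff.mpr hd) (C_mod4 hd)]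
  exact J_Cd cop

include cop hd in
theorem J_AC : J(Aa g d | Cc g d) = J(2 | Aa g d) := by
  have : NeZero d := ⟨by rintro rfl; omega⟩
  have : NeZero (Ss g d) := ⟨(S_odd hd).pos.ne'⟩
  unfold Aa
  rw [Nat.cast_mul, jacobiSym.mul_left, J_sC hd cop, J_dC hd cop, jacobiSym.mul_right]

include cop hd in
theorem J_BC : J(Bb g d | Cc g d) = 1 := by
  have h1 : ((Bb g d : ℕ) : ℤ) % (Cc g d : ℕ) = ((Ss g d : ℤ) ^ 2) % (Cc g d : ℕ) := by
    have : ((Ss g d : ℤ) ^ 2) = Bb g d + Cc g d * 1 := by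
      have := rel_Cs (g := g) (d := d)
      zify at this; linarith
    rw [this, Int.add_mul_emod_self_left]
  rw [jacobiSym.mod_left' h1, jacobiSym.sq_one']
  rw [Int.gcd_natCast_natCast]; exact cop_sC hd cop

include cop in
theorem J_Bd : J(Bb g d | d) = J(2 | d) := by
  have h1 : ((Bb g d : ℕ) : ℤ) % (d : ℕ) = ((Cc g d : ℕ) : ℤ) % (d : ℕ) := by
    rw [rel_Cd]; push_cast
    rw [sq, Int.add_mul_emod_self_left]
  rw [jacobiSym.mod_left' h1, J_Cd cop]

include cop in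
theorem J_Bs : J(Bb g d | Ss g d) = J(-1 | Ss g d) * J(2 | Ss g d) := by
  have h1 : ((Bb g d : ℕ) : ℤ) % (Ss g d : ℕ) = (-1 * ((Cc g d : ℕ) : ℤ)) % (Ss g d : ℕ) := by
    have : ((Bb g d : ℕ) : ℤ) = -1 * ((Cc g d : ℕ) : ℤ) + (Ss g d : ℤ) * (Ss g d : ℤ) := by
      have := rel_Cs (g := g) (d := d)
      zify at this; linarith
    rw [this, Int.add_mul_emod_self_left]
  rw [jacobiSym.mod_left' h1, jacobiSym.mul_left, J_Cs cop]

/-- Cancelling powers. -/
theorem cancel_pow {K : Type*} [Field K] {u e : K} (hu : u ≠ 0) (he : e ^ 2 = 1) {a b : ℕ}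
    (h : u ^ a = e * u ^ b) : u ^ ((a - b) + (b - a)) = e := by
  rcases le_total a b with hab | hab
  · obtain ⟨k, rfl⟩ := Nat.exists_eq_add_of_le hab
    have h1 : u ^ a ≠ 0 := pow_ne_zero _ hu
    have h2 : (1 : K) = e * u ^ k := by
      apply mul_left_cancel₀ h1
      rw [mul_one]
      conv_lhs => rw [h]
      rw [pow_add]; ring
    have h3 : u ^ k = e := by
      have : e * (e * u ^ k) = e * 1 := by rw [← h2]
      rw [← mul_assoc, ← sq, he, one_mul, mul_one] at this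
      exact this
    rw [show a - (a + k) + (a + k - a) = k by omega]
    exact h3
  · obtain ⟨k, rfl⟩ := Nat.exists_eq_add_of_le hab
    have h1 : u ^ b ≠ 0 := pow_ne_zero _ hu
    have h3 : u ^ k = e := by
      apply mul_left_cancel₀ h1
      rw [← pow_add, h]; ring
    rw [show b + k - b + (b - (b + k)) = k by omega]
    exact h3

include cop hd in
/-- `J(n | C) = 1` for odd `n` whose prime factors divide `B`. -/
theorem J_odd_part {n : ℕ} (hn : Odd n) (h : ∀ q : ℕ, q.Prime → q ∣ n → q ∣ Bb g d) :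
    J(n | Cc g d) = 1 := by
  rw [jacobiSym.quadratic_reciprocity_one_mod_four' hn (C_mod4 hd)]
  induction n using Nat.recOnMul with
  | zero => exact absurd hn (by decide)
  | one => simp
  | prime q hq =>
    have hqB := h q hq dvd_rfl
    have hq2 : ¬ q ∣ 2 := by
      intro h2
      have := (Nat.prime_dvd_prime_iff_eq hq Nat.prime_two).mp h2
      subst this; exact absurd hn (by decide)
    have hfg := cop_fg cop
    unfold Bb at hqB
    rcases (hq.dvd_mul).mp hqB with h1 | h1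
    · rcases (hq.dvd_mul).mp h1 with h1 | h1
      · exact absurd h1 hq2
      · obtain ⟨k, hk⟩ := h1
        have h2 : ((Cc g d : ℕ) : ℤ) % (q : ℕ) = ((g : ℤ) ^ 2) % (q : ℕ) := by
          have : ((Cc g d : ℕ) : ℤ) = (g : ℤ) ^ 2 + (q : ℤ) * (k * (q * k)) := by
            unfold Cc; rw [hk]; push_cast; ring
          rw [this, Int.add_mul_emod_self_left]
        rw [jacobiSym.mod_left' h2, jacobiSym.sq_one']
        rw [Int.gcd_natCast_natCast]
        exact (Nat.Coprime.coprime_dvd_left ⟨k, hk⟩ hfg).symm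
    · obtain ⟨k, hk⟩ := h1
      have h2 : ((Cc g d : ℕ) : ℤ) % (q : ℕ) = (((g + d : ℕ) : ℤ) ^ 2) % (q : ℕ) := by
        have : ((Cc g d : ℕ) : ℤ) = (((g + d : ℕ) : ℤ)) ^ 2 + (q : ℤ) * (k * (q * k)) := by
          have h3 : (g : ℤ) = q * k := by exact_mod_cast hk
          unfold Cc
          push_cast
          linear_combination (g + q * k : ℤ) * h3
        rw [this, Int.add_mul_emod_self_left]
      rw [jacobiSym.mod_left' h2, jacobiSym.sq_one']
      rw [Int.gcd_natCast_natCast]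
      exact Nat.Coprime.coprime_dvd_right ⟨k, hk⟩ hfg
  | mul u v hu hv =>
    have hou : Odd u := (Nat.odd_mul.mp hn).1
    have hov : Odd v := (Nat.odd_mul.mp hn).2
    have : NeZero u := ⟨hou.pos.ne'⟩
    have : NeZero v := ⟨hov.pos.ne'⟩
    rw [jacobiSym.mul_right, hu hou (fun p hp hd => h p hp (hd.mul_right _)),
      hv hov (fun p hp hd => h p hp (hd.mul_left _)), one_mul]

include cop hd in
theorem J_part {a n : ℕ} (hn : Odd n) (h : ∀ q : ℕ, q.Prime → q ∣ n → q ∣ Bb g d) :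
    J(((2 ^ a * n : ℕ) : ℤ) | Cc g d) = J(2 | Cc g d) ^ a := by
  rw [Nat.cast_mul, jacobiSym.mul_left, J_odd_part hd cop hn h, mul_one, Nat.cast_pow,
    jacobiSym.pow_left]
  rfl

end

/-! ### Consequences of a solution -/

section
variable {g d x y z : ℕ} (S : Sol g d x y z)

include S in
theorem rel_d : J(2 | d) ^ x = J(-1 | d) * J(2 | d) ^ y := by
  have h := S.eq
  have h1 : (((Cc g d : ℕ) : ℤ) ^ x) % (d : ℕ) = (-1 * ((Bb g d : ℕ) : ℤ) ^ y) % (d : ℕ) := by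
    obtain ⟨k, hk⟩ : d ∣ Aa g d ^ z := dvd_pow (Dvd.intro _ rfl) S.hz.ne'
    have h2 : (((Cc g d : ℕ) : ℤ) ^ x) = -1 * ((Bb g d : ℕ) : ℤ) ^ y + (d : ℤ) * k := by
      zify at h hk
      linarith
    rw [h2, Int.add_mul_emod_self_left]
  have h3 := jacobiSym.mod_left' h1
  rw [jacobiSym.pow_left, jacobiSym.mul_left, jacobiSym.pow_left, J_Cd S.cop,
    J_Bd S.cop] at h3
  exact h3

include S in
theorem rel_s : J(2 | Ss g d) ^ x = J(-1 | Ss g d) * (J(-1 | Ss g d) * J(2 | Ss g d)) ^ y := by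
  have h := S.eq
  have h1 : (((Cc g d : ℕ) : ℤ) ^ x) % (Ss g d : ℕ) =
      (-1 * ((Bb g d : ℕ) : ℤ) ^ y) % (Ss g d : ℕ) := by
    obtain ⟨k, hk⟩ : Ss g d ∣ Aa g d ^ z := dvd_pow (Dvd.intro_left _ rfl) S.hz.ne'
    have h2 : (((Cc g d : ℕ) : ℤ) ^ x) = -1 * ((Bb g d : ℕ) : ℤ) ^ y + (Ss g d : ℤ) * k := by
      zify at h hk
      linarith
    rw [h2, Int.add_mul_emod_self_left]
  have h3 := jacobiSym.mod_left' h1
  rw [jacobiSym.pow_left, jacobiSym.mul_left, jacobiSym.pow_left, J_Cs S.cop,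
    J_Bs S.cop] at h3
  exact h3

include S in
theorem d3 (h : d % 8 = 3) : (x + y) % 2 = 1 := by
  have h1 := rel_d S
  rw [two_neg (Or.inl h), neg_one_neg (by omega)] at h1
  rcases Nat.even_or_odd x with hx | hx <;> rcases Nat.even_or_odd y with hy | hy <;>
    rw [hx.neg_one_pow, hy.neg_one_pow] at h1 <;>
    first | (exfalso; omega) | (have := hx; have := hy; rw [Nat.even_iff] at *; rw [Nat.odd_iff] at *; omega)

include S in
theorem d5 (h : d % 8 = 5) : (x + y) % 2 = 0 := by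
  have h1 := rel_d S
  rw [two_neg (Or.inr h), neg_one_one (by omega)] at h1
  rcases Nat.even_or_odd x with hx | hx <;> rcases Nat.even_or_odd y with hy | hy <;>
    rw [hx.neg_one_pow, hy.neg_one_pow] at h1 <;>
    first | (exfalso; omega) | (simp only [Nat.even_iff, Nat.odd_iff] at hx hy; omega)

include S in
theorem d7 (h : d % 8 = 7) : False := by
  have h1 := rel_d S
  rw [two_one (Or.inr h), neg_one_neg (by omega)] at h1
  simp at h1

include S in
theorem s3 (h : Ss g d % 8 = 3) : x % 2 = 1 := by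
  have h1 := rel_s S
  rw [two_neg (Or.inl h), neg_one_neg (by omega)] at h1
  rcases Nat.even_or_odd x with hx | hx
  · rw [hx.neg_one_pow] at h1; simp at h1
  · exact Nat.odd_iff.mp hx

include S in
theorem s5 (h : Ss g d % 8 = 5) : (x + y) % 2 = 0 := by
  have h1 := rel_s S
  rw [two_neg (Or.inr h), neg_one_one (by omega)] at h1
  rcases Nat.even_or_odd x with hx | hx <;> rcases Nat.even_or_odd y with hy | hy <;>
    rw [one_mul, one_mul, hx.neg_one_pow, hy.neg_one_pow] at h1 <;>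
    first | (exfalso; omega) | (simp only [Nat.even_iff, Nat.odd_iff] at hx hy; omega)

include S in
theorem s7 (h : Ss g d % 8 = 7) : y % 2 = 1 := by
  have h1 := rel_s S
  rw [two_one (Or.inr h), neg_one_neg (by omega)] at h1
  rcases Nat.even_or_odd y with hy | hy
  · rw [one_pow, mul_one, hy.neg_one_pow] at h1; simp at h1
  · exact Nat.odd_iff.mp hy

include S in
/-- Modulo a prime factor of `C`. -/
theorem modC {p : ℕ} (hp : p.Prime) (h : p ∣ Cc g d) :
    ((Ss g d : ℕ) : ZMod p) ≠ 0 ∧ ((Bb g d : ℕ) : ZMod p) = ((Ss g d : ℕ) : ZMod p) ^ 2 ∧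
      ((Bb g d : ℕ) : ZMod p) ≠ 0 ∧
      ((Aa g d : ℕ) : ZMod p) ^ 2 = - ((Bb g d : ℕ) : ZMod p) ^ 2 := by
  have : Fact p.Prime := ⟨hp⟩
  have hC : ((Cc g d : ℕ) : ZMod p) = 0 := (ZMod.natCast_eq_zero_iff _ _).mpr h
  have hs : ((Ss g d : ℕ) : ZMod p) ≠ 0 := by
    intro h0
    have h1 : p ∣ Ss g d := (ZMod.natCast_eq_zero_iff _ _).mp h0
    exact Nat.not_coprime_of_dvd_of_dvd hp.one_lt h1 h (cop_sC S.hd S.cop)
  have hB : ((Bb g d : ℕ) : ZMod p) = ((Ss g d : ℕ) : ZMod p) ^ 2 := by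
    have := congrArg (fun n : ℕ => (n : ZMod p)) (rel_Cs (g := g) (d := d))
    simp only [Nat.cast_add, Nat.cast_pow] at this
    rw [hC, zero_add] at this
    exact this
  refine ⟨hs, hB, ?_, ?_⟩
  · rw [hB]; exact pow_ne_zero _ hs
  · have := congrArg (fun n : ℕ => (n : ZMod p)) (rel_pyth (g := g) (d := d))
    simp only [Nat.cast_add, Nat.cast_pow] at this
    rw [hC] at this
    linear_combination this

include S in
theorem powC_even {Z : ℕ} (hZ : z = 2 * Z) {p : ℕ} (hp : p.Prime) (h : p ∣ Cc g d) :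
    (((Ss g d : ℕ) : ℤ) : ZMod p) ^ (2 * ((y - 2 * Z) + (2 * Z - y))) = (-1) ^ Z := by
  have : Fact p.Prime := ⟨hp⟩
  obtain ⟨hs, hB, hB0, hA⟩ := modC S hp h
  have hC : ((Cc g d : ℕ) : ZMod p) = 0 := (ZMod.natCast_eq_zero_iff _ _).mpr h
  have h1 := congrArg (fun n : ℕ => (n : ZMod p)) S.eq
  simp only [Nat.cast_add, Nat.cast_pow] at h1
  rw [hC, zero_pow S.hx.ne', zero_add, hZ, pow_mul, hA, neg_pow, ← pow_mul] at h1
  have h2 := cancel_pow hB0 (e := (-1) ^ Z) (by rw [← pow_mul, mul_comm, pow_mul]; simp) h1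
  rw [pow_mul, Int.cast_natCast, ← hB]
  exact h2

include S in
theorem powC_odd (hz : z % 2 = 1) {p : ℕ} (hp : p.Prime) (h : p ∣ Cc g d) :
    (((Ss g d : ℕ) : ℤ) : ZMod p) ^ (4 * ((y - z) + (z - y))) = -1 := by
  have : Fact p.Prime := ⟨hp⟩
  obtain ⟨hs, hB, hB0, hA⟩ := modC S hp h
  have hC : ((Cc g d : ℕ) : ZMod p) = 0 := (ZMod.natCast_eq_zero_iff _ _).mpr h
  have h1 := congrArg (fun n : ℕ => (n : ZMod p)) S.eq
  simp only [Nat.cast_add, Nat.cast_pow] at h1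
  rw [hC, zero_pow S.hx.ne', zero_add] at h1
  have h3 : (((Bb g d : ℕ) : ZMod p) ^ 2) ^ y = -1 * (((Bb g d : ℕ) : ZMod p) ^ 2) ^ z := by
    rw [← pow_mul, mul_comm, pow_mul, h1, ← pow_mul, mul_comm, pow_mul, hA, neg_pow,
      (Nat.odd_iff.mpr hz).neg_one_pow]
  have h2 := cancel_pow (pow_ne_zero 2 hB0) (e := -1) (by ring) h3
  rw [show 4 * (y - z + (z - y)) = 2 * (2 * (y - z + (z - y))) by ring, pow_mul, pow_mul,
    Int.cast_natCast, ← hB]
  exact h2

end

end Pool.Agent.H71M
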