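import Pool.Agent.Helper71_Miya.K33

/-!
# The easy classes
-/

namespace Pool.Agent.H71M

open scoped NumberTheorySymbols

section
variable {g d x y z : ℕ} (S : Sol g d x y z)

include S in
/-- `z` is even when `A ≡ 3 (mod 4)`. -/
theorem z_even_of_A3 (hA : Aa g d % 4 = 3) (hB : Bb g d % 4 = 0) : z % 2 = 0 := by
  have h := S.eq
  have hC := C_mod4 (g := g) (d := d) S.hd
  have h1 : Cc g d ^ x % 4 = 1 := by rw [Nat.pow_mod, hC, one_pow, Nat.one_mod]
  have h2 : Bb g d ^ y % 4 = 0 := by rw [Nat.pow_mod, hB, zero_pow S.hy.ne', Nat.zero_mod]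
  by_contra hz
  have h3 : Aa g d ^ z % 4 = 3 := by
    obtain ⟨k, rfl⟩ : ∃ k, z = 2 * k + 1 := ⟨z / 2, by omega⟩
    rw [pow_succ, pow_mul, Nat.mul_mod, Nat.pow_mod, Nat.pow_mod (Aa g d), hA]
    simp
  omega

include S in
theorem k53 (h1 : d % 8 = 5) (h2 : Ss g d % 8 = 3) : False := by
  have hxo := s3 S h2
  have hyo : y % 2 = 1 := by have := d5 S h1; omega
  have hcl : Bb g d % 8 = 0 ∧ Cc g d % 8 = 1 := by
    rcases class_B (g := g) (d := d) S.hd with ⟨_, _, ⟨h, h'⟩ | ⟨h, h'⟩⟩ | ⟨h, h', _⟩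
    · omega
    · omega
    · exact ⟨h, h'⟩
  have hze : z % 2 = 0 := by
    apply z_even_of_A3 S
    · unfold Aa; rw [Nat.mul_mod, show d % 4 = 1 by omega, show Ss g d % 4 = 3 by omega]
    · omega
  obtain ⟨Z, rfl⟩ : ∃ Z, z = 2 * Z := ⟨z / 2, by omega⟩
  rcases Nat.even_or_odd Z with hZ | hZ
  · have h3 := rl_even S rfl hyo (Nat.even_iff.mp hZ)
    rw [two_neg (Or.inl h2)] at h3; norm_num at h3
  · have h3 := rl_odd S rfl hyo (Nat.odd_iff.mp hZ)
    rw [two_neg (Or.inl h2), two_one (Or.inl hcl.2)] at h3; norm_num at h3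

include S in
/-- The class `f - g ≡ 3 (mod 8)`. -/
theorem kd3 (h1 : d % 8 = 3) : False := by
  rcases class_B (g := g) (d := d) S.hd with ⟨_, h, _⟩ | ⟨_, _, ⟨h, h'⟩ | ⟨h, h' | h'⟩⟩
  · have h3 := (k1b S h).2.2.2
    have := mod8_of_primes (Nat.odd_iff.mpr S.hd) h3
    omega
  · omega
  · exact k33 S h1 h'
  · have := d3 S h1; have := s5 S h'; omega

end

end Pool.Agent.H71M
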