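import Pool.Agent.Helper71_Miya.Basic

/-!
# The case `B ≡ 4 (mod 8)`
-/

namespace Pool.Agent.H71M

open scoped NumberTheorySymbols

section
variable {g d : ℕ}

/-- The residue classes modulo `8`. -/
theorem class_B (hd : d % 2 = 1) :
    (Bb g d % 8 = 4 ∧ Cc g d % 8 = 5 ∧ (((d % 8 = 1 ∨ d % 8 = 7) ∧ (Ss g d % 8 = 3 ∨ Ss g d % 8 = 5))
      ∨ ((d % 8 = 3 ∨ d % 8 = 5) ∧ (Ss g d % 8 = 1 ∨ Ss g d % 8 = 7)))) ∨
    (Bb g d % 8 = 0 ∧ Cc g d % 8 = 1 ∧ (((d % 8 = 1 ∨ d % 8 = 7) ∧ (Ss g d % 8 = 1 ∨ Ss g d % 8 = 7))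
      ∨ ((d % 8 = 3 ∨ d % 8 = 5) ∧ (Ss g d % 8 = 3 ∨ Ss g d % 8 = 5)))) := by
  have h1 : g % 8 = 0 ∨ g % 8 = 1 ∨ g % 8 = 2 ∨ g % 8 = 3 ∨ g % 8 = 4 ∨ g % 8 = 5 ∨ g % 8 = 6 ∨
    g % 8 = 7 := by omega
  have h2 : d % 8 = 1 ∨ d % 8 = 3 ∨ d % 8 = 5 ∨ d % 8 = 7 := by omega
  rcases h1 with h1 | h1 | h1 | h1 | h1 | h1 | h1 | h1 <;> rcases h2 with h2 | h2 | h2 | h2 <;>
    simp [Bb, Cc, Ss, Nat.add_mod, Nat.mul_mod, Nat.pow_mod, h1, h2]

/-- Product of numbers `1` modulo `8`. -/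
theorem mod8_of_primes {n : ℕ} (hn : Odd n) (h : ∀ p : ℕ, p.Prime → p ∣ n → p % 8 = 1) :
    n % 8 = 1 := by
  induction n using Nat.recOnMul with
  | zero => exact absurd hn (by decide)
  | one => rfl
  | prime p hp => exact h p hp dvd_rfl
  | mul u v hu hv =>
    rw [Nat.mul_mod, hu (Nat.odd_mul.mp hn).1 (fun p hp hd => h p hp (hd.mul_right _)),
      hv (Nat.odd_mul.mp hn).2 (fun p hp hd => h p hp (hd.mul_left _))]

theorem pow_mod16 {a : ℕ} (n : ℕ) (ha : a % 16 = 5 ∨ a % 16 = 13) :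
    (n % 4 = 1 ∧ a ^ n % 16 = a % 16) ∨ (n % 4 = 3 ∧ a ^ n % 16 = (a + 8) % 16) ∨
      (n % 2 = 0 ∧ a ^ n % 8 = 1) := by
  obtain ⟨k, r, hr, rfl⟩ : ∃ k r, r < 4 ∧ n = 4 * k + r := ⟨n / 4, n % 4, by omega, by omega⟩
  have h4 : a ^ (4 * k) % 16 = 1 := by
    rw [pow_mul, Nat.pow_mod, Nat.pow_mod a]
    rcases ha with ha | ha <;> rw [ha] <;> simp
  have h4' : a ^ (4 * k) % 8 = 1 := by omega
  have hr' : r = 0 ∨ r = 1 ∨ r = 2 ∨ r = 3 := by omega
  rcases hr' with rfl | rfl | rfl | rfl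
  · right; right; exact ⟨by omega, by simpa using h4'⟩
  · left
    refine ⟨by omega, ?_⟩
    rw [pow_add, Nat.mul_mod, h4]; simp
  · right; right
    refine ⟨by omega, ?_⟩
    rw [pow_add, Nat.mul_mod, h4', Nat.pow_mod]
    rcases ha with ha | ha
    · have : a % 8 = 5 := by omega
      rw [this]
    · have : a % 8 = 5 := by omega
      rw [this]
  · right; left
    refine ⟨by omega, ?_⟩
    rw [pow_add, Nat.mul_mod, h4, Nat.pow_mod]
    rcases ha with ha | ha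
    · rw [ha]; omega
    · rw [ha]; omega

end

section
variable {g d x y z : ℕ} (S : Sol g d x y z)

include S in
theorem A_odd : Odd (Aa g d) := by
  unfold Aa; exact (Nat.odd_iff.mpr S.hd).mul (S_odd S.hd)

include S in
/-- `z` is even when `C ≡ 5 (mod 8)`. -/
theorem z_even_of_C5 (hC : Cc g d % 8 = 5) : z % 2 = 0 := by
  have hJ : J(2 | Aa g d) = -1 := by
    apply two_neg
    have := class_B (g := g) (d := d) S.hd
    unfold Aa
    rcases this with ⟨_, _, ⟨h1 | h1, h2 | h2⟩ | ⟨h1 | h1, h2 | h2⟩⟩ | ⟨_, h, _⟩ <;>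
      first | (exfalso; omega) | simp [Nat.mul_mod, h1, h2]
  have h1 : (((Aa g d : ℕ) : ℤ) ^ z) % (Cc g d : ℕ) = (((Bb g d : ℕ) : ℤ) ^ y) % (Cc g d : ℕ) := by
    obtain ⟨k, hk⟩ : Cc g d ∣ Cc g d ^ x := dvd_pow_self _ S.hx.ne'
    have h := S.eq
    have h2 : (((Aa g d : ℕ) : ℤ) ^ z) = ((Bb g d : ℕ) : ℤ) ^ y + (Cc g d : ℤ) * k := by
      zify at h hk
      linarith
    rw [h2, Int.add_mul_emod_self_left]
  have h3 := jacobiSym.mod_left' h1
  rw [jacobiSym.pow_left, jacobiSym.pow_left, J_AC S.hd S.cop, J_BC S.hd S.cop, hJ, one_pow] at h3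
  rcases Nat.even_or_odd z with hz | hz
  · exact Nat.even_iff.mp hz
  · rw [hz.neg_one_pow] at h3; simp at h3

include S in
/-- Symbol of `s` for `z` even, `y` odd. -/
theorem rl_even {Z : ℕ} (hZ : z = 2 * Z) (hy : y % 2 = 1) (h2 : Z % 2 = 0) :
    J(2 | Ss g d) = 1 := by
  rw [← J_sC S.hd S.cop]
  apply sq_one_jacobi (m := (y - 2 * Z) + (2 * Z - y)) (Nat.odd_iff.mpr (by omega)) _ (C_odd S.hd)
    (fun p hp h => prime_C S.cop S.hd hp h)
  intro p hp h
  rw [powC_even S hZ hp h, (Nat.even_iff.mpr h2).neg_one_pow]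

include S in
theorem rl_odd {Z : ℕ} (hZ : z = 2 * Z) (hy : y % 2 = 1) (h2 : Z % 2 = 1) :
    J(2 | Ss g d) = J(2 | Cc g d) := by
  rw [← J_sC S.hd S.cop]
  obtain ⟨k, hk, hJ⟩ := ord_jacobi (r := (Ss g d : ℕ)) (a := 1)
    (m := (y - 2 * Z) + (2 * Z - y)) (Nat.odd_iff.mpr (by omega)) (Cc g d) (C_odd S.hd) (by
      intro p hp h
      rw [pow_one, powC_even S hZ hp h, (Nat.odd_iff.mpr h2).neg_one_pow])
  rw [hJ]
  rcases Nat.even_or_odd k with hk2 | hk2
  · rw [hk2.neg_one_pow, two_one]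
    rw [Nat.even_iff] at hk2; omega
  · rw [hk2.neg_one_pow, two_neg]
    rw [Nat.odd_iff] at hk2; omega

include S in
/-- `y ≥ 2` is impossible. -/
theorem k1a (hC : Cc g d % 8 = 5) (hy : 2 ≤ y) : False := by
  have hz := z_even_of_C5 S hC
  obtain ⟨Z, rfl⟩ : ∃ Z, z = 2 * Z := ⟨z / 2, by omega⟩
  have hcl := class_B (g := g) (d := d) S.hd
  have hB8 : Bb g d % 8 = 4 := by
    rcases hcl with ⟨h, _, _⟩ | ⟨_, h, _⟩
    · exact h
    · omega
  have hAo := A_odd S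
  have hA2 : Aa g d ^ (2 * Z) % 8 = 1 := by
    rw [pow_mul, Nat.pow_mod, Nat.pow_mod (Aa g d)]
    have h0 := Nat.odd_iff.mp hAo
    have : Aa g d % 8 = 1 ∨ Aa g d % 8 = 3 ∨ Aa g d % 8 = 5 ∨ Aa g d % 8 = 7 := by omega
    rcases this with h | h | h | h <;> rw [h] <;> simp
  have hBy : Bb g d ^ y % 8 = 0 := by
    obtain ⟨k, rfl⟩ := Nat.exists_eq_add_of_le hy
    rw [pow_add, Nat.mul_mod, Nat.pow_mod, hB8]; simp
  have hxe : x % 2 = 0 := by
    have h := S.eq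
    have h16 : Cc g d % 16 = 5 ∨ Cc g d % 16 = 13 := by omega
    rcases pow_mod16 x h16 with ⟨_, h1⟩ | ⟨_, h1⟩ | ⟨h1, _⟩
    · omega
    · omega
    · exact h1
  obtain ⟨X, rfl⟩ : ∃ X, x = 2 * X := ⟨x / 2, by omega⟩
  have hZpos : 0 < Z := by have := S.hz; omega
  have hXpos : 0 < X := by have := S.hx; omega
  have hCo := C_odd (g := g) S.hd
  -- the two factors
  have heq := S.eq
  have hlt : Cc g d ^ X < Aa g d ^ Z := by
    have hBpos : 0 < Bb g d ^ y := by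
      have : 0 < Bb g d := by unfold Bb; have := S.hg; positivity
      positivity
    have : (Cc g d ^ X) ^ 2 < (Aa g d ^ Z) ^ 2 := by
      rw [← pow_mul, ← pow_mul, mul_comm X, mul_comm Z]; omega
    exact lt_of_pow_lt_pow_left₀ 2 (by positivity) this
  set P := Aa g d ^ Z with hP
  set Q := Cc g d ^ X with hQ
  have hPo : Odd P := hAo.pow
  have hQo : Odd Q := hCo.pow
  have hprod : (P + Q) * (P - Q) = Bb g d ^ y := by
    rw [← Nat.sq_sub_sq, hP, hQ, ← pow_mul, ← pow_mul, mul_comm X, mul_comm Z]; omega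
  -- two-adic factorizations
  obtain ⟨a, n, hn, hPQ⟩ := Nat.exists_eq_two_pow_mul_odd (n := P + Q) (by omega)
  obtain ⟨b, m, hm, hPQ'⟩ := Nat.exists_eq_two_pow_mul_odd (n := P - Q) (by omega)
  obtain ⟨B', hB', hBB⟩ : ∃ B', Odd B' ∧ Bb g d = 2 ^ 2 * B' :=
    ⟨Bb g d / 4, Nat.odd_iff.mpr (by omega), by omega⟩
  have hab : a + b = 2 * y := by
    have h1 : 2 ^ (a + b) * (n * m) = 2 ^ (2 * y) * B' ^ y := by
      rw [pow_mul, ← mul_pow, ← hBB, ← hprod, hPQ, hPQ', pow_add]; ring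
    have h2 := congrArg (padicValNat 2) h1
    have hnm : Odd (n * m) := hn.mul hm
    have hBo : Odd (B' ^ y) := hB'.pow
    have hv : ∀ (e t : ℕ), Odd t → padicValNat 2 (2 ^ e * t) = e := by
      intro e t ht
      have hfact : Fact (Nat.Prime 2) := ⟨Nat.prime_two⟩
      rw [padicValNat.mul (by positivity) ht.pos.ne', padicValNat.prime_pow,
        padicValNat.eq_zero_of_not_dvd (by rwa [← even_iff_two_dvd, Nat.not_even_iff_odd]), add_zero]
    rw [hv _ _ hnm, hv _ _ hBo] at h2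
    exact h2
  have ha : a % 2 = 1 := by
    have ha1 : a = 1 ∨ b = 1 := by
      by_contra hcon
      push Not at hcon
      have hsum : (P + Q) + (P - Q) = 2 * P := by omega
      have hPo' := Nat.odd_iff.mp hPo
      have hQo' := Nat.odd_iff.mp hQo
      have h1 : 4 ∣ P + Q := by
        rw [hPQ]
        have : 2 ≤ a := by
          rcases Nat.lt_or_ge a 2 with h | h
          · interval_cases a
            · exfalso; rw [pow_zero, one_mul] at hPQ; have := Nat.odd_iff.mp hn; omega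
            · exact absurd rfl hcon.1
          · exact h
        exact (pow_dvd_pow 2 this).mul_right n
      have h2 : 4 ∣ P - Q := by
        rw [hPQ']
        have : 2 ≤ b := by
          rcases Nat.lt_or_ge b 2 with h | h
          · interval_cases b
            · exfalso; rw [pow_zero, one_mul] at hPQ'; have := Nat.odd_iff.mp hm; omega
            · exact absurd rfl hcon.2
          · exact h
        exact (pow_dvd_pow 2 this).mul_right m
      omega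
    omega
  -- prime factors of `n` divide `B`
  have hnB : ∀ q : ℕ, q.Prime → q ∣ n → q ∣ Bb g d := by
    intro q hq hqn
    apply hq.dvd_of_dvd_pow (n := y)
    rw [← hprod, hPQ]
    exact (hqn.mul_left _).mul_right _
  have hJ1 := J_part (a := a) S.hd S.cop hn hnB
  rw [← hPQ, two_neg (Or.inr hC), (Nat.odd_iff.mpr ha).neg_one_pow] at hJ1
  have hJ2 : J(((P + Q : ℕ) : ℤ) | Cc g d) = J(2 | Aa g d) ^ Z := by
    have h1 : ((P + Q : ℕ) : ℤ) % (Cc g d : ℕ) = (((Aa g d : ℕ) : ℤ) ^ Z) % (Cc g d : ℕ) := by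
      obtain ⟨k, hk⟩ : Cc g d ∣ Q := dvd_pow_self _ hXpos.ne'
      have h2 : ((P + Q : ℕ) : ℤ) = ((Aa g d : ℕ) : ℤ) ^ Z + (Cc g d : ℤ) * k := by
        rw [hk, hP]; push_cast; ring
      rw [h2, Int.add_mul_emod_self_left]
    rw [jacobiSym.mod_left' h1, jacobiSym.pow_left, J_AC S.hd S.cop]
  have hJA : J(2 | Aa g d) = -1 := by
    apply two_neg
    unfold Aa
    rcases hcl with ⟨_, _, ⟨h1 | h1, h2 | h2⟩ | ⟨h1 | h1, h2 | h2⟩⟩ | ⟨_, h, _⟩ <;>
      first | (exfalso; omega) | simp [Nat.mul_mod, h1, h2]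
  rw [hJ1, hJA] at hJ2
  have hZo : Z % 2 = 1 := by
    rcases Nat.even_or_odd Z with h | h
    · rw [h.neg_one_pow] at hJ2; simp at hJ2
    · exact Nat.odd_iff.mp h
  -- parity of `y`
  rcases Nat.even_or_odd y with hye | hyo
  · have hye' := Nat.even_iff.mp hye
    -- every prime factor of `C` is `1` modulo `8`
    set k := (y - 2 * Z) + (2 * Z - y) with hk
    have hk2 : k % 2 = 0 := by omega
    rcases Nat.eq_zero_or_pos k with hk0 | hkpos
    · obtain ⟨p, hp, hpC⟩ := Nat.exists_prime_and_dvd (n := Cc g d) (by omega)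
      have h1 := powC_even S rfl hp hpC
      rw [← hk, hk0, mul_zero, pow_zero, (Nat.odd_iff.mpr hZo).neg_one_pow] at h1
      have : Fact p.Prime := ⟨hp⟩
      have h4 := prime_C S.cop S.hd hp hpC
      have : Fact (2 < p) := ⟨by have := hp.two_le; omega⟩
      exact ZMod.neg_one_ne_one h1.symm
    · obtain ⟨c, m', hm', hkk⟩ := Nat.exists_eq_two_pow_mul_odd (n := k) hkpos.ne'
      obtain ⟨c', rfl⟩ : ∃ c', c = c' + 1 := by
        rcases c with _ | c'
        · exfalso; rw [pow_zero, one_mul] at hkk; have := Nat.odd_iff.mp hm'; omega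
        · exact ⟨c', rfl⟩
      obtain ⟨l, hl, _⟩ := ord_jacobi (r := (Ss g d : ℕ)) (a := c' + 2) hm' (Cc g d) (C_odd S.hd) (by
        intro p hp h
        have h1 := powC_even S rfl hp h
        rw [← hk, hkk, (Nat.odd_iff.mpr hZo).neg_one_pow] at h1
        rw [← h1]; congr 1; ring)
      have : Cc g d = 8 * (2 ^ c' * l) + 1 := by rw [hl]; ring
      omega
  · have hyo' := Nat.odd_iff.mp hyo
    have h1 := rl_odd S rfl hyo' hZo
    rw [two_neg (b := Cc g d) (Or.inr hC)] at h1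
    rcases hcl with ⟨_, _, ⟨h2 | h2, h3 | h3⟩ | ⟨h2, h3⟩⟩ | ⟨_, h, _⟩
    · have := s3 S h3; omega
    · have := s5 S h3; omega
    · exact d7 S h2
    · exact d7 S h2
    · rw [two_one h3] at h1; simp at h1
    · omega

include S in
/-- `y = 1`, and then `x ≡ 1 (mod 4)` and all prime factors of `d` are `1` modulo `8`. -/
theorem k1b (hC : Cc g d % 8 = 5) :
    y = 1 ∧ x % 4 = 1 ∧ z % 2 = 0 ∧ ∀ p : ℕ, p.Prime → p ∣ d → p % 8 = 1 := by
  have hy1 : y = 1 := by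
    have := S.hy
    by_contra hcon
    exact k1a S hC (by omega)
  subst hy1
  have hz := z_even_of_C5 S hC
  obtain ⟨Z, rfl⟩ : ∃ Z, z = 2 * Z := ⟨z / 2, by omega⟩
  have hcl := class_B (g := g) (d := d) S.hd
  have hB8 : Bb g d % 8 = 4 := by
    rcases hcl with ⟨h, _, _⟩ | ⟨_, h, _⟩
    · exact h
    · omega
  have hAo := A_odd S
  have heq := S.eq
  rw [pow_one] at heq
  have hCs := rel_Cs (g := g) (d := d)
  have h16 : Cc g d % 16 = 5 ∨ Cc g d % 16 = 13 := by omega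
  have hA8 : Aa g d % 8 = 3 ∨ Aa g d % 8 = 5 := by
    unfold Aa
    rcases hcl with ⟨_, _, ⟨h1 | h1, h2 | h2⟩ | ⟨h1 | h1, h2 | h2⟩⟩ | ⟨_, h, _⟩ <;>
      first | (exfalso; omega) | simp [Nat.mul_mod, h1, h2]
  -- `C ^ x = C` modulo `16`
  have key : Cc g d ^ x % 16 = Cc g d % 16 := by
    have hs : (Ss g d % 8 = 1 ∨ Ss g d % 8 = 7) ∨ (Ss g d % 8 = 3 ∨ Ss g d % 8 = 5) := by
      rcases hcl with ⟨_, _, ⟨_, h⟩ | ⟨_, h⟩⟩ | ⟨_, h, _⟩
      · exact Or.inr h
      · exact Or.inl h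
      · omega
    rcases hs with hs | hs
    · have hZe : Z % 2 = 0 := by
        by_contra hcon
        have h1 := rl_odd S rfl (by norm_num) (by omega : Z % 2 = 1)
        rw [two_one hs, two_neg (b := Cc g d) (Or.inr hC)] at h1
        simp at h1
      have hA : Aa g d ^ (2 * Z) % 16 = 1 := by
        obtain ⟨W, rfl⟩ : ∃ W, Z = 2 * W := ⟨Z / 2, by omega⟩
        rw [show 2 * (2 * W) = 4 * W by ring, pow_mul, Nat.pow_mod, Nat.pow_mod (Aa g d)]
        have : Aa g d % 16 = 3 ∨ Aa g d % 16 = 11 ∨ Aa g d % 16 = 5 ∨ Aa g d % 16 = 13 := by omega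
        rcases this with h | h | h | h <;> rw [h] <;> simp
      have hss : Ss g d ^ 2 % 16 = 1 := by
        rw [Nat.pow_mod]
        have : Ss g d % 16 = 1 ∨ Ss g d % 16 = 9 ∨ Ss g d % 16 = 7 ∨ Ss g d % 16 = 15 := by omega
        rcases this with h | h | h | h <;> rw [h] <;> rfl
      omega
    · have hZo : Z % 2 = 1 := by
        by_contra hcon
        have h1 := rl_even S rfl (by norm_num) (by omega : Z % 2 = 0)
        rw [two_neg hs] at h1
        simp at h1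
      have hA : Aa g d ^ (2 * Z) % 16 = 9 := by
        obtain ⟨W, rfl⟩ : ∃ W, Z = 2 * W + 1 := ⟨Z / 2, by omega⟩
        rw [show 2 * (2 * W + 1) = 4 * W + 2 by ring, pow_add, pow_mul, Nat.mul_mod, Nat.pow_mod,
          Nat.pow_mod (Aa g d), Nat.pow_mod (Aa g d) 2]
        have : Aa g d % 16 = 3 ∨ Aa g d % 16 = 11 ∨ Aa g d % 16 = 5 ∨ Aa g d % 16 = 13 := by omega
        rcases this with h | h | h | h <;> rw [h] <;> simp
      have hss : Ss g d ^ 2 % 16 = 9 := by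
        rw [Nat.pow_mod]
        have : Ss g d % 16 = 3 ∨ Ss g d % 16 = 11 ∨ Ss g d % 16 = 5 ∨ Ss g d % 16 = 13 := by omega
        rcases this with h | h | h | h <;> rw [h] <;> rfl
      omega
  have hx1 : x % 4 = 1 := by
    rcases pow_mod16 x h16 with ⟨h, _⟩ | ⟨_, h1⟩ | ⟨_, h1⟩
    · exact h
    · exfalso; omega
    · exfalso; omega
  refine ⟨rfl, hx1, hz, ?_⟩
  intro p hp hpd
  have hfp : Fact p.Prime := ⟨hp⟩
  have hp2 : p ≠ 2 := by
    rintro rfl
    have := S.hd; omega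
  -- modulo `p`
  have hC0 : ((Cc g d : ℕ) : ZMod p) ≠ 0 := by
    intro h0
    have h1 : p ∣ Cc g d := (ZMod.natCast_eq_zero_iff _ _).mp h0
    exact Nat.not_coprime_of_dvd_of_dvd hp.one_lt hpd h1 (cop_dC S.hd S.cop)
  have hBC : ((Bb g d : ℕ) : ZMod p) = ((Cc g d : ℕ) : ZMod p) := by
    have h1 := congrArg (fun n : ℕ => (n : ZMod p)) (rel_Cd (g := g) (d := d))
    simp only [Nat.cast_add, Nat.cast_pow] at h1
    rw [(ZMod.natCast_eq_zero_iff _ _).mpr hpd] at h1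
    rw [h1]; ring
  have hA0 : ((Aa g d : ℕ) : ZMod p) = 0 := by
    apply (ZMod.natCast_eq_zero_iff _ _).mpr
    exact hpd.mul_right _
  have h1 := congrArg (fun n : ℕ => (n : ZMod p)) heq
  simp only [Nat.cast_add, Nat.cast_pow] at h1
  rw [hA0, hBC, zero_pow (by have := S.hz; omega)] at h1
  obtain ⟨k, rfl⟩ : ∃ k, x = 4 * k + 1 := ⟨x / 4, by omega⟩
  have h2 : (((Cc g d : ℕ) : ℤ) : ZMod p) ^ (4 * k) = -1 := by
    rw [Int.cast_natCast]
    apply mul_right_cancel₀ hC0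
    rw [pow_succ] at h1
    linear_combination h1
  rcases Nat.eq_zero_or_pos k with hk0 | hkpos
  · rw [hk0, mul_zero, pow_zero] at h2
    have : Fact (2 < p) := ⟨lt_of_le_of_ne hp.two_le (Ne.symm hp2)⟩
    exact absurd h2.symm ZMod.neg_one_ne_one
  · obtain ⟨c, m', hm', hkk⟩ := Nat.exists_eq_two_pow_mul_odd (n := k) hkpos.ne'
    obtain ⟨l, hl, _⟩ := ord_prime (r := (Cc g d : ℕ)) (a := c + 2) hp2 hm' (by
      rw [← h2, hkk]; congr 1; ring)
    have h3 := hp.two_le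
    have : p - 1 = 8 * (2 ^ c * l) := by rw [hl]; ring
    omega

end

end Pool.Agent.H71M
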