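import Pool.Agent.Helper71_Miya.K1

/-!
# The case `f - g ≡ f + g ≡ 3 (mod 8)`
-/

namespace Pool.Agent.H71M

open scoped NumberTheorySymbols

theorem two_pow_inj {a b m n : ℕ} (h : 2 ^ a * m = 2 ^ b * n) (hm : Odd m) (hn : Odd n) :
    a = b := by
  have hv : ∀ (e t : ℕ), Odd t → padicValNat 2 (2 ^ e * t) = e := by
    intro e t ht
    have hfact : Fact (Nat.Prime 2) := ⟨Nat.prime_two⟩
    rw [padicValNat.mul (by positivity) ht.pos.ne', padicValNat.prime_pow,
      padicValNat.eq_zero_of_not_dvd (by rwa [← even_iff_two_dvd, Nat.not_even_iff_odd]), add_zero]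
  have h2 := congrArg (padicValNat 2) h
  rwa [hv _ _ hm, hv _ _ hn] at h2

/-- powers of a number fixed by squaring-type residues -/
theorem odd_pow_mod {a r N n : ℕ} (ha : a % N = r) (h2 : r * r * r % N = r) 
    (hn : n % 2 = 1) : a ^ n % N = r := by
  obtain ⟨k, rfl⟩ : ∃ k, n = 2 * k + 1 := ⟨n / 2, by omega⟩
  induction k with
  | zero => simpa using ha
  | succ k ih =>
    have ih' := ih (by omega)
    rw [show 2 * (k + 1) + 1 = (2 * k + 1) + 1 + 1 by ring, pow_succ, pow_succ, Nat.mul_mod,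
      Nat.mul_mod (a ^ (2 * k + 1)), ih', ha, Nat.mod_mul_mod]
    exact h2

theorem even_pow_mod {a r N n : ℕ} (ha : a % N = r) (h2 : r * r % N = 1 % N) (hn : n % 2 = 0) :
    a ^ n % N = 1 % N := by
  obtain ⟨k, rfl⟩ : ∃ k, n = 2 * k := ⟨n / 2, by omega⟩
  rw [pow_mul, Nat.pow_mod, sq, Nat.mul_mod, ha, h2, ← Nat.pow_mod, one_pow]

section
variable {g d x y z : ℕ} (S : Sol g d x y z)

include S in
/-- `z` is even when `f ≡ 3 (mod 4)`. -/
theorem z_even_of_f3 (hf : (g + d) % 4 = 3) : z % 2 = 0 := by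
  have hcop : Nat.gcd g (g + d) = 1 := (cop_fg S.cop).symm
  have hJ1 : J(Cc g d | (g + d)) = 1 := by
    have h1 : ((Cc g d : ℕ) : ℤ) % ((g + d : ℕ) : ℤ) = ((g : ℤ) ^ 2) % ((g + d : ℕ) : ℤ) := by
      have : ((Cc g d : ℕ) : ℤ) = (g : ℤ) ^ 2 + ((g + d : ℕ) : ℤ) * ((g + d : ℕ) : ℤ) := by
        unfold Cc; push_cast; ring
      rw [this, Int.add_mul_emod_self_left]
    rw [jacobiSym.mod_left' h1, jacobiSym.sq_one']
    rw [Int.gcd_natCast_natCast]; exact hcop
  have hJ2 : J(Aa g d | (g + d)) = -1 := by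
    have h1 : ((Aa g d : ℕ) : ℤ) % ((g + d : ℕ) : ℤ) = (-1 * (g : ℤ) ^ 2) % ((g + d : ℕ) : ℤ) := by
      have : ((Aa g d : ℕ) : ℤ) = -1 * (g : ℤ) ^ 2 + ((g + d : ℕ) : ℤ) * ((g + d : ℕ) : ℤ) := by
        unfold Aa Ss; push_cast; ring
      rw [this, Int.add_mul_emod_self_left]
    rw [jacobiSym.mod_left' h1, jacobiSym.mul_left, jacobiSym.sq_one', mul_one, neg_one_neg hf]
    rw [Int.gcd_natCast_natCast]; exact hcop
  have h1 : (((Aa g d : ℕ) : ℤ) ^ z) % ((g + d : ℕ) : ℤ) =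
      (((Cc g d : ℕ) : ℤ) ^ x) % ((g + d : ℕ) : ℤ) := by
    obtain ⟨k, hk⟩ : (g + d) ∣ Bb g d ^ y := by
      apply dvd_pow _ S.hy.ne'
      unfold Bb
      exact (Dvd.intro_left _ rfl : (g + d) ∣ 2 * (g + d)).mul_right g
    have h := S.eq
    have h2 : (((Aa g d : ℕ) : ℤ) ^ z) = ((Cc g d : ℕ) : ℤ) ^ x + ((g + d : ℕ) : ℤ) * k := by
      zify at h hk ⊢
      linarith
    rw [h2, Int.add_mul_emod_self_left]
  have h3 := jacobiSym.mod_left' h1
  rw [jacobiSym.pow_left, jacobiSym.pow_left, hJ1, hJ2, one_pow] at h3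
  rcases Nat.even_or_odd z with hz | hz
  · exact Nat.even_iff.mp hz
  · rw [hz.neg_one_pow] at h3; simp at h3

include S in
theorem k33 (h1 : d % 8 = 3) (h2 : Ss g d % 8 = 3) : False := by
  have hxo := s3 S h2
  have hye : y % 2 = 0 := by have := d3 S h1; omega
  have hg4 : g % 4 = 0 := by unfold Ss at h2; omega
  have hze := z_even_of_f3 S (by omega)
  obtain ⟨Y, rfl⟩ : ∃ Y, y = 2 * Y := ⟨y / 2, by omega⟩
  obtain ⟨Z, rfl⟩ : ∃ Z, z = 2 * Z := ⟨z / 2, by omega⟩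
  have hYpos : 0 < Y := by have := S.hy; omega
  have hZpos : 0 < Z := by have := S.hz; omega
  have heq := S.eq
  -- residues of the sides
  have hres : (Cc g d % 64 = 1 ∧ Aa g d % 64 = 33 ∧ Bb g d % 16 = 8) ∨
      (Cc g d % 64 = 33 ∧ Aa g d % 64 = 1) ∨ (Cc g d % 32 = 17 ∧ (Aa g d % 32 = 17)) ∨
      (Cc g d % 16 = 9 ∧ Aa g d % 16 = 9) := by
    have hA : Aa g d + 2 * g ^ 2 = Cc g d := by unfold Aa Cc Ss; ring
    have hf8 : (g + d) % 8 = 3 ∧ g % 8 = 0 ∨ (g + d) % 8 = 7 ∧ g % 8 = 4 := by omega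
    rcases hf8 with ⟨hf, hg8⟩ | ⟨hf, hg8⟩
    · right; right; right
      obtain ⟨q, hq⟩ : ∃ q, g + d = 8 * q + 3 := ⟨(g + d) / 8, by omega⟩
      obtain ⟨r, hr⟩ : ∃ r, g = 8 * r := ⟨g / 8, by omega⟩
      have hC : Cc g d = 16 * (4 * q ^ 2 + 3 * q) + 9 + 16 * (4 * r ^ 2) := by
        unfold Cc; rw [hq, hr]; ring
      have hg2 : g ^ 2 = 16 * (4 * r ^ 2) := by rw [hr]; ring
      omega
    · obtain ⟨q, hq⟩ : ∃ q, g + d = 8 * q + 7 := ⟨(g + d) / 8, by omega⟩
      obtain ⟨r, hr⟩ : ∃ r, g = 8 * r + 4 := ⟨g / 8, by omega⟩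
      have hC : Cc g d = 64 * (q ^ 2 + q) + 48 * q + 49 + (64 * (r ^ 2 + r) + 16) := by
        unfold Cc; rw [hq, hr]; ring
      have hg2 : g ^ 2 = 64 * (r ^ 2 + r) + 16 := by rw [hr]; ring
      have hB : Bb g d = 16 * ((8 * q + 7) * r + 4 * q + 3) + 8 := by
        unfold Bb; rw [hq, hr]; ring
      have hq4 : q % 4 = 0 ∨ q % 4 = 1 ∨ q % 4 = 2 ∨ q % 4 = 3 := by omega
      rcases hq4 with h | h | h | h
      · left; omega
      · right; right; left; omega
      · right; left; omega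
      · right; right; left; omega
  have hB8 : Bb g d % 8 = 0 := by
    rcases class_B (g := g) (d := d) S.hd with ⟨_, _, ⟨h, h'⟩ | ⟨h, h'⟩⟩ | ⟨h, _, _⟩
    · omega
    · omega
    · exact h
  have hBy : Bb g d ^ (2 * Y) % 64 = 0 := by
    obtain ⟨B', hB'⟩ : ∃ B', Bb g d = 8 * B' := ⟨Bb g d / 8, by omega⟩
    obtain ⟨k, rfl⟩ : ∃ k, Y = k + 1 := ⟨Y - 1, by omega⟩
    exact Nat.mod_eq_zero_of_dvd ⟨(8 * B') ^ (2 * k) * B' ^ 2, by rw [hB']; ring⟩
  have hmain : Cc g d % 64 = 1 ∧ Aa g d % 64 = 33 ∧ Bb g d % 16 = 8 := by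
    rcases hres with h | ⟨h, h'⟩ | ⟨h, h'⟩ | ⟨h, h'⟩
    · exact h
    · exfalso
      have e1 := odd_pow_mod (N := 64) h (by norm_num) hxo
      have e2 := even_pow_mod (N := 64) (n := 2 * Z) h' (by norm_num) (by omega)
      omega
    · exfalso
      have e1 := odd_pow_mod (N := 32) h (by norm_num) hxo
      have e2 := even_pow_mod (N := 32) (n := 2 * Z) h' (by norm_num) (by omega)
      omega
    · exfalso
      have e1 := odd_pow_mod (N := 16) h (by norm_num) hxo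
      have e2 := even_pow_mod (N := 16) (n := 2 * Z) h' (by norm_num) (by omega)
      omega
  obtain ⟨hC64, hA64, hB16⟩ := hmain
  -- the common power of two
  obtain ⟨j, G, hG, hgcd⟩ := Nat.exists_eq_two_pow_mul_odd (n := Nat.gcd Z Y)
    (Nat.gcd_pos_of_pos_left _ hZpos).ne'
  obtain ⟨Z', hZ'⟩ : 2 ^ j ∣ Z := (Dvd.intro _ hgcd.symm).trans (Nat.gcd_dvd_left _ _)
  obtain ⟨Y', hY'⟩ : 2 ^ j ∣ Y := (Dvd.intro _ hgcd.symm).trans (Nat.gcd_dvd_right _ _)
  have hnot : ¬ (Z' % 2 = 0 ∧ Y' % 2 = 0) := by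
    rintro ⟨hz, hy⟩
    have h3 : 2 ^ j * 2 ∣ Nat.gcd Z Y := by
      apply Nat.dvd_gcd
      · rw [hZ']; exact Nat.mul_dvd_mul_left _ (by omega)
      · rw [hY']; exact Nat.mul_dvd_mul_left _ (by omega)
    rw [hgcd] at h3
    have h4 := Nat.dvd_of_mul_dvd_mul_left (by positivity) h3
    have := Nat.odd_iff.mp hG
    omega
  have hZ'pos : 0 < Z' := by
    rcases Nat.eq_zero_or_pos Z' with h | h
    · rw [h, mul_zero] at hZ'; omega
    · exact h
  have hY'pos : 0 < Y' := by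
    rcases Nat.eq_zero_or_pos Y' with h | h
    · rw [h, mul_zero] at hY'; omega
    · exact h
  set P := Aa g d ^ Z' with hP
  set Q := Bb g d ^ Y' with hQ
  have eP : Aa g d ^ (2 * Z) = (P ^ 2) ^ 2 ^ j := by
    rw [hP, ← pow_mul, ← pow_mul, hZ']; congr 1; ring
  have eQ : Bb g d ^ (2 * Y) = (Q ^ 2) ^ 2 ^ j := by
    rw [hQ, ← pow_mul, ← pow_mul, hY']; congr 1; ring
  have hCpos : 0 < Cc g d := (C_odd S.hd).pos
  have hlt : Q < P := by
    have h3 : (Q ^ 2) ^ 2 ^ j < (P ^ 2) ^ 2 ^ j := by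
      rw [← eP, ← eQ]
      have : 0 < Cc g d ^ x := by positivity
      omega
    have h4 := lt_of_pow_lt_pow_left₀ _ (by positivity) h3
    exact lt_of_pow_lt_pow_left₀ 2 (by positivity) h4
  have hdiv : P ^ 2 - Q ^ 2 ∣ Cc g d ^ x := by
    have h3 := Nat.sub_dvd_pow_sub_pow (P ^ 2) (Q ^ 2) (2 ^ j)
    rw [← eP, ← eQ] at h3
    have : Cc g d ^ x = Aa g d ^ (2 * Z) - Bb g d ^ (2 * Y) := by omega
    rw [this]; exact h3
  have hM : P - Q ∣ Cc g d ^ x := by
    rw [Nat.sq_sub_sq] at hdiv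
    exact (Dvd.intro_left _ rfl).trans hdiv
  have hM' : P + Q ∣ Cc g d ^ x := by
    rw [Nat.sq_sub_sq] at hdiv
    exact (Dvd.intro _ rfl).trans hdiv
  -- residues of P, Q
  have hP16 : P % 16 = 1 := by
    rw [hP, Nat.pow_mod, show Aa g d % 16 = 1 by omega, one_pow, Nat.one_mod]
  have hQ8 : Q % 8 = 0 := by
    rw [hQ, Nat.pow_mod, hB8, zero_pow hY'pos.ne', Nat.zero_mod]
  have hPQ8 : (P - Q) % 8 = 1 := by omega
  have hPQ8' : (P + Q) % 8 = 1 := by omega
  have hsP : Ss g d ∣ P := dvd_pow (Dvd.intro_left _ rfl) hZ'pos.ne'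
  obtain ⟨w, hw⟩ := hsP
  have hBs : J(Bb g d | Ss g d) = 1 := by
    rw [J_Bs S.cop, neg_one_neg (by omega), two_neg (Or.inl h2)]; norm_num
  -- the symbols
  have J1 : J(Ss g d | P - Q) = -1 := by
    rw [jacobiSym.quadratic_reciprocity_one_mod_four' (S_odd S.hd) (by omega)]
    have h3 : ((P - Q : ℕ) : ℤ) % (Ss g d : ℕ) =
        (-1 * ((Bb g d : ℕ) : ℤ) ^ Y') % (Ss g d : ℕ) := by
      have : ((P - Q : ℕ) : ℤ) = -1 * ((Bb g d : ℕ) : ℤ) ^ Y' + (Ss g d : ℤ) * w := by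
        rw [Nat.cast_sub hlt.le, hw, hQ]; push_cast; ring
      rw [this, Int.add_mul_emod_self_left]
    rw [jacobiSym.mod_left' h3, jacobiSym.mul_left, jacobiSym.pow_left, hBs, one_pow,
      neg_one_neg (by omega)]
    norm_num
  have J2 : J(Ss g d | P + Q) = 1 := by
    rw [jacobiSym.quadratic_reciprocity_one_mod_four' (S_odd S.hd) (by omega)]
    have h3 : ((P + Q : ℕ) : ℤ) % (Ss g d : ℕ) =
        (((Bb g d : ℕ) : ℤ) ^ Y') % (Ss g d : ℕ) := by
      have : ((P + Q : ℕ) : ℤ) = ((Bb g d : ℕ) : ℤ) ^ Y' + (Ss g d : ℤ) * w := by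
        rw [hw, hQ]; push_cast; ring
      rw [this, Int.add_mul_emod_self_left]
    rw [jacobiSym.mod_left' h3, jacobiSym.pow_left, hBs, one_pow]
  -- prime factors of the two numbers
  have hpC : ∀ p : ℕ, p.Prime → (p ∣ P - Q ∨ p ∣ P + Q) → p ∣ Cc g d := by
    intro p hp h
    rcases h with h | h
    · exact hp.dvd_of_dvd_pow (h.trans hM)
    · exact hp.dvd_of_dvd_pow (h.trans hM')
  have hsq : ∀ p : ℕ, p.Prime → (p ∣ P - Q ∨ p ∣ P + Q) →
      (((Ss g d : ℕ) : ℤ) : ZMod p) ^ (4 * ((Y' - Z') + (Z' - Y'))) = (-1) ^ Z' := by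
    intro p hp h
    have hfp : Fact p.Prime := ⟨hp⟩
    obtain ⟨hs, hB, hB0, hA⟩ := modC S hp (hpC p hp h)
    have h3 : ((P : ℕ) : ZMod p) ^ 2 = ((Q : ℕ) : ZMod p) ^ 2 := by
      rcases h with h | h
      · have h4 : ((P - Q : ℕ) : ZMod p) = 0 := (ZMod.natCast_eq_zero_iff _ _).mpr h
        rw [Nat.cast_sub hlt.le] at h4
        rw [sub_eq_zero.mp h4]
      · have h4 : ((P + Q : ℕ) : ZMod p) = 0 := (ZMod.natCast_eq_zero_iff _ _).mpr h
        rw [Nat.cast_add] at h4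
        rw [eq_neg_of_add_eq_zero_left h4]; ring
    rw [hP, hQ, Nat.cast_pow, Nat.cast_pow, ← pow_mul, ← pow_mul, mul_comm Z', mul_comm Y',
      pow_mul, pow_mul, hA, neg_pow] at h3
    have h5 := cancel_pow (pow_ne_zero 2 hB0) (e := (-1) ^ Z')
      (by rw [← pow_mul, mul_comm, pow_mul]; simp) h3.symm
    rw [show 4 * ((Y' - Z') + (Z' - Y')) = 2 * (2 * ((Y' - Z') + (Z' - Y'))) by ring, pow_mul,
      pow_mul, Int.cast_natCast, ← hB]
    exact h5
  have hMo : Odd (P - Q) := Nat.odd_iff.mpr (by omega)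
  have hMo' : Odd (P + Q) := Nat.odd_iff.mpr (by omega)
  rcases Nat.even_or_odd Z' with hz | hz
  · -- `Z'` even, `Y'` odd
    have hz' := Nat.even_iff.mp hz
    have hyo : Y' % 2 = 1 := by omega
    obtain ⟨W, hW⟩ : ∃ W, Z' = 2 * W := ⟨Z' / 2, by omega⟩
    have hfine : ∀ p : ℕ, p.Prime → p ∣ P - Q →
        (((Ss g d : ℕ) : ℤ) : ZMod p) ^ (2 * ((Y' - Z') + (Z' - Y'))) = (-1) ^ W := by
      intro p hp h
      have hfp : Fact p.Prime := ⟨hp⟩
      obtain ⟨hs, hB, hB0, hA⟩ := modC S hp (hpC p hp (Or.inl h))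
      have h4 : ((P - Q : ℕ) : ZMod p) = 0 := (ZMod.natCast_eq_zero_iff _ _).mpr h
      rw [Nat.cast_sub hlt.le] at h4
      have h3 := (sub_eq_zero.mp h4)
      rw [hP, hQ, Nat.cast_pow, Nat.cast_pow] at h3
      have h6 : ((Aa g d : ℕ) : ZMod p) ^ Z' = (-1) ^ W * ((Bb g d : ℕ) : ZMod p) ^ Z' := by
        rw [hW, pow_mul, hA, neg_pow, ← pow_mul]
      rw [h6] at h3
      have h5 := cancel_pow hB0 (e := (-1) ^ W)
        (by rw [← pow_mul, mul_comm, pow_mul]; simp) h3.symm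
      rw [pow_mul, Int.cast_natCast, ← hB]
      exact h5
    rcases Nat.even_or_odd W with hWe | hWo
    · have h3 := sq_one_jacobi (r := (Ss g d : ℕ)) (m := (Y' - Z') + (Z' - Y'))
        (Nat.odd_iff.mpr (by omega)) (P - Q) hMo
        (fun p hp h => prime_C S.cop S.hd hp (hpC p hp (Or.inl h)))
        (fun p hp h => by rw [hfine p hp h, hWe.neg_one_pow])
      rw [J1] at h3; norm_num at h3
    · obtain ⟨k, hk, hJ⟩ := ord_jacobi (r := (Ss g d : ℕ)) (a := 1)
        (m := (Y' - Z') + (Z' - Y')) (Nat.odd_iff.mpr (by omega)) (P - Q) hMo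
        (fun p hp h => by rw [pow_one, hfine p hp h, hWo.neg_one_pow])
      have hke : Even k := Nat.even_iff.mpr (by omega)
      rw [J1, hke.neg_one_pow] at hJ; norm_num at hJ
  · have hz' := Nat.odd_iff.mp hz
    rcases Nat.even_or_odd Y' with hy | hy
    · -- `Z'` odd, `Y'` even
      have hy' := Nat.even_iff.mp hy
      obtain ⟨k, hk, hJ⟩ := ord_jacobi (r := (Ss g d : ℕ)) (a := 2)
        (m := (Y' - Z') + (Z' - Y')) (Nat.odd_iff.mpr (by omega)) (P - Q) hMo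
        (fun p hp h => by
          have := hsq p hp (Or.inl h)
          rw [hz.neg_one_pow] at this
          exact this)
      have hQ64 : Q % 16 = 0 := by
        obtain ⟨B', hB'⟩ : ∃ B', Bb g d = 8 * B' := ⟨Bb g d / 8, by omega⟩
        obtain ⟨i, hi⟩ : ∃ i, Y' = i + 2 := ⟨Y' - 2, by omega⟩
        rw [hQ, hB', hi]
        exact Nat.mod_eq_zero_of_dvd ⟨(8 * B') ^ i * (4 * B' ^ 2), by ring⟩
      have hke : Even k := Nat.even_iff.mpr (by omega)
      rw [J1, hke.neg_one_pow] at hJ; norm_num at hJ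
    · -- both odd
      have hy' := Nat.odd_iff.mp hy
      set k := (Y' - Z') + (Z' - Y') with hk
      rcases Nat.eq_zero_or_pos k with hk0 | hkpos
      · have hne1 : P - Q ≠ 1 := by
          intro h
          rw [h] at J1; simp at J1
        obtain ⟨p, hp, hpd⟩ := Nat.exists_prime_and_dvd hne1
        have h3 := hsq p hp (Or.inl hpd)
        rw [hk0, mul_zero, pow_zero, hz.neg_one_pow] at h3
        have hfp : Fact p.Prime := ⟨hp⟩
        have h4 := prime_C S.cop S.hd hp (hpC p hp (Or.inl hpd))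
        have : Fact (2 < p) := ⟨by have := hp.two_le; omega⟩
        exact ZMod.neg_one_ne_one h3.symm
      · obtain ⟨v, m', hm', hkk⟩ := Nat.exists_eq_two_pow_mul_odd (n := k) hkpos.ne'
        have hpow : ∀ p : ℕ, p.Prime → (p ∣ P - Q ∨ p ∣ P + Q) →
            (((Ss g d : ℕ) : ℤ) : ZMod p) ^ (2 ^ (v + 2) * m') = -1 := by
          intro p hp h
          have h3 := hsq p hp h
          rw [hkk, hz.neg_one_pow] at h3
          rw [← h3]; congr 1; ring
        obtain ⟨l, hl, hJl⟩ := ord_jacobi (r := (Ss g d : ℕ)) hm' (P - Q) hMo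
          (fun p hp h => hpow p hp (Or.inl h))
        obtain ⟨l', hl', hJl'⟩ := ord_jacobi (r := (Ss g d : ℕ)) hm' (P + Q) hMo'
          (fun p hp h => hpow p hp (Or.inr h))
        rw [J1] at hJl
        rw [J2] at hJl'
        have hlo : l % 2 = 1 := by
          rcases Nat.even_or_odd l with h | h
          · rw [h.neg_one_pow] at hJl; norm_num at hJl
          · exact Nat.odd_iff.mp h
        have hle' : l' % 2 = 0 := by
          rcases Nat.even_or_odd l' with h | h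
          · exact Nat.even_iff.mp h
          · rw [h.neg_one_pow] at hJl'; norm_num at hJl'
        have hll : l < l' := by
          have h3 : 2 ^ (v + 2 + 1) * l < 2 ^ (v + 2 + 1) * l' := by
            have : 0 < Q := by
              rw [hQ]
              have : 0 < Bb g d := by unfold Bb; have := S.hg; positivity
              positivity
            omega
          exact lt_of_mul_lt_mul_left h3 (by positivity)
        -- valuation of `Q`
        have hQv : Q = 2 ^ (v + 2) * (l' - l) := by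
          have h3 : 2 ^ (v + 2 + 1) * l' = 2 * (2 ^ (v + 2) * l') := by ring
          have h4 : 2 ^ (v + 2 + 1) * l = 2 * (2 ^ (v + 2) * l) := by ring
          rw [Nat.mul_sub]
          omega
        obtain ⟨B', hB'o, hB'⟩ : ∃ B', Odd B' ∧ Bb g d = 2 ^ 3 * B' :=
          ⟨Bb g d / 8, Nat.odd_iff.mpr (by omega), by omega⟩
        have hQv' : Q = 2 ^ (3 * Y') * B' ^ Y' := by
          rw [hQ, hB', mul_pow, ← pow_mul]
        have e1 := two_pow_inj (hQv.symm.trans hQv') (Nat.odd_iff.mpr (by omega)) hB'o.pow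
        -- valuation of `P - 1`
        have hPv : P - 1 = 2 ^ (v + 2) * (l' + l) := by
          have h3 : 2 ^ (v + 2 + 1) * l' = 2 * (2 ^ (v + 2) * l') := by ring
          have h4 : 2 ^ (v + 2 + 1) * l = 2 * (2 ^ (v + 2) * l) := by ring
          rw [Nat.mul_add]
          omega
        have hP64 : P % 64 = 33 := by
          rw [hP]; exact odd_pow_mod (N := 64) hA64 (by norm_num) hz'
        have hPv' : P - 1 = 2 ^ 5 * ((P - 1) / 32) := by omega
        have e2 := two_pow_inj (hPv.symm.trans hPv') (Nat.odd_iff.mpr (by omega))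
          (Nat.odd_iff.mpr (by omega))
        omega

end

end Pool.Agent.H71M
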