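import Mathlib

/-!
# Power residues of two-power order and Jacobi symbols
-/

namespace Pool.Agent.H71M

open scoped NumberTheorySymbols

/-- If `r ^ (2^a * m) = -1` modulo the odd prime `p`, with `m` odd, then `2^(a+1)` divides `p - 1`
and the Legendre symbol of `r` is `(-1)^((p-1)/2^(a+1))`. -/
theorem ord_prime {p : ℕ} [hp : Fact p.Prime] (hp2 : p ≠ 2) {r : ℤ} {a m : ℕ} (hm : Odd m)
    (h : (r : ZMod p) ^ (2 ^ a * m) = -1) :
    ∃ k : ℕ, p - 1 = 2 ^ (a + 1) * k ∧ J(r | p) = (-1) ^ k := by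
  have hne : (-1 : ZMod p) ≠ 1 := by
    have : Fact (2 < p) := ⟨lt_of_le_of_ne hp.out.two_le (Ne.symm hp2)⟩
    exact ZMod.neg_one_ne_one
  have hr0 : (r : ZMod p) ≠ 0 := by
    intro h0
    rw [h0, zero_pow (by have := hm.pos; positivity)] at h
    exact one_ne_zero (neg_eq_zero.mp h.symm)
  set t : ZMod p := (r : ZMod p) ^ m with ht
  have ht0 : t ≠ 0 := pow_ne_zero _ hr0
  have h1 : t ^ 2 ^ a = -1 := by rw [ht, ← pow_mul, mul_comm m]; exact h
  have hord : orderOf t = 2 ^ (a + 1) := by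
    apply orderOf_eq_prime_pow
    · rw [h1]; exact hne
    · rw [pow_succ, pow_mul, h1]; ring
  have hdvd : 2 ^ (a + 1) ∣ p - 1 := by
    rw [← hord]
    exact orderOf_dvd_of_pow_eq_one (ZMod.pow_card_sub_one_eq_one ht0)
  obtain ⟨k, hk⟩ := hdvd
  refine ⟨k, hk, ?_⟩
  have hpar : p / 2 = 2 ^ a * k := by
    have h2 := hp.out.two_le
    have : p - 1 = 2 * (2 ^ a * k) := by rw [hk]; ring
    omega
  -- Legendre symbol of `r`
  have hleg : ((J(r | p) : ℤ) : ZMod p) = (-1) ^ k := by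
    rw [← jacobiSym.legendreSym.to_jacobiSym]
    have h3 : ((legendreSym p r : ℤ) : ZMod p) = (r : ZMod p) ^ (p / 2) := legendreSym.eq_pow p r
    have h4 : ((legendreSym p r : ℤ) : ZMod p) ^ m = (-1) ^ k := by
      rw [h3, ← pow_mul, mul_comm, pow_mul, ← ht, hpar, pow_mul, h1]
    have h5 : legendreSym p r = 1 ∨ legendreSym p r = -1 :=
      legendreSym.eq_one_or_neg_one p hr0
    rcases h5 with h5 | h5
    · rw [h5] at h4 ⊢
      simpa using h4
    · rw [h5] at h4 ⊢
      rw [Int.cast_neg, Int.cast_one] at h4 ⊢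
      rw [← h4, hm.neg_one_pow]
  have hJ : J(r | p) = 1 ∨ J(r | p) = -1 := by
    rw [← jacobiSym.legendreSym.to_jacobiSym]; exact legendreSym.eq_one_or_neg_one p hr0
  rcases Nat.even_or_odd k with hk' | hk'
  · rw [hk'.neg_one_pow] at hleg ⊢
    rcases hJ with h6 | h6
    · exact h6
    · exfalso; rw [h6] at hleg; apply hne; simpa using hleg
  · rw [hk'.neg_one_pow] at hleg ⊢
    rcases hJ with h6 | h6
    · exfalso; rw [h6] at hleg; apply hne; rw [← hleg]; simp
    · exact h6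

/-- The composite version. -/
theorem ord_jacobi {r : ℤ} {a m : ℕ} (hm : Odd m) (N : ℕ) (hN : Odd N)
    (h : ∀ p : ℕ, p.Prime → p ∣ N → (r : ZMod p) ^ (2 ^ a * m) = -1) :
    ∃ k : ℕ, N = 2 ^ (a + 1) * k + 1 ∧ J(r | N) = (-1) ^ k := by
  induction N using Nat.recOnMul with
  | zero => exact absurd hN (by decide)
  | one => exact ⟨0, by simp, by simp⟩
  | prime p hp =>
    have : Fact p.Prime := ⟨hp⟩
    have hp2 : p ≠ 2 := by rintro rfl; exact absurd hN (by decide)
    obtain ⟨k, hk, hJ⟩ := ord_prime (r := r) hp2 hm (h p hp dvd_rfl)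
    refine ⟨k, ?_, hJ⟩
    have := hp.two_le
    omega
  | mul u v hu hv =>
    have hou : Odd u := (Nat.odd_mul.mp hN).1
    have hov : Odd v := (Nat.odd_mul.mp hN).2
    obtain ⟨k, hk, hJk⟩ := hu hou (fun p hp hd => h p hp (hd.mul_right _))
    obtain ⟨l, hl, hJl⟩ := hv hov (fun p hp hd => h p hp (hd.mul_left _))
    have : NeZero u := ⟨hou.pos.ne'⟩
    have : NeZero v := ⟨hov.pos.ne'⟩
    refine ⟨2 ^ (a + 1) * k * l + k + l, ?_, ?_⟩
    · rw [hk, hl]; ring
    · rw [jacobiSym.mul_right, hJk, hJl]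
      rw [show 2 ^ (a + 1) * k * l + k + l = 2 * (2 ^ a * k * l) + (k + l) by ring,
        pow_add _ (2 * (2 ^ a * k * l)), pow_mul, pow_add]
      simp

/-- If `r ^ (2 * m) = 1` modulo every prime factor of `N`, with `m` odd, and every prime factor is
`1` modulo `4`, then the Jacobi symbol is `1`. -/
theorem sq_one_jacobi {r : ℤ} {m : ℕ} (hm : Odd m) (N : ℕ) (hN : Odd N)
    (h4 : ∀ p : ℕ, p.Prime → p ∣ N → p % 4 = 1)
    (h : ∀ p : ℕ, p.Prime → p ∣ N → (r : ZMod p) ^ (2 * m) = 1) :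
    J(r | N) = 1 := by
  induction N using Nat.recOnMul with
  | zero => exact absurd hN (by decide)
  | one => simp
  | prime p hp =>
    have : Fact p.Prime := ⟨hp⟩
    have h1 := h p hp dvd_rfl
    have hr0 : (r : ZMod p) ≠ 0 := by
      intro h0
      rw [h0, zero_pow (by have := hm.pos; positivity)] at h1
      exact zero_ne_one h1
    have h2 : ((r : ZMod p) ^ m) = 1 ∨ ((r : ZMod p) ^ m) = -1 := by
      rw [mul_comm, pow_mul] at h1
      exact mul_self_eq_one_iff.mp (by rw [← sq]; exact h1)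
    have hp4 := h4 p hp dvd_rfl
    have hsq : IsSquare (r : ZMod p) := by
      obtain ⟨i, hi⟩ := hm
      have hneg : IsSquare (-1 : ZMod p) := ZMod.exists_sq_eq_neg_one_iff.mpr (by omega)
      have h5 : IsSquare ((r : ZMod p) ^ m) := by
        rcases h2 with h2 | h2
        · rw [h2]; exact IsSquare.one
        · rw [h2]; exact hneg
      rw [hi, pow_succ, pow_mul] at h5
      obtain ⟨w, hw⟩ := h5
      have hri : (r : ZMod p) ^ i ≠ 0 := pow_ne_zero _ hr0
      refine ⟨w / (r : ZMod p) ^ i, ?_⟩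
      rw [div_mul_div_comm, ← hw]
      field_simp
      ring
    rw [← jacobiSym.legendreSym.to_jacobiSym]
    exact (legendreSym.eq_one_iff p hr0).mpr hsq
  | mul u v hu hv =>
    have hou : Odd u := (Nat.odd_mul.mp hN).1
    have hov : Odd v := (Nat.odd_mul.mp hN).2
    have : NeZero u := ⟨hou.pos.ne'⟩
    have : NeZero v := ⟨hov.pos.ne'⟩
    rw [jacobiSym.mul_right, hu hou (fun p hp hd => h4 p hp (hd.mul_right _))
      (fun p hp hd => h p hp (hd.mul_right _)), hv hov (fun p hp hd => h4 p hp (hd.mul_left _))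
      (fun p hp hd => h p hp (hd.mul_left _)), one_mul]

end Pool.Agent.H71M
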